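import Mathlib
import Pool.Agent.W_MP_80b09e_al.Defs
import Pool.Agent.W_MP_80b09e_al.Main

set_option autoImplicit false

/-!
The `only if` direction for all subgroups of Thompson's group `F`: if the subgroup `H` generated by the elements
that are represented by a set `D` of reduced pairs of trees contains a copy of `F`, then the semigroup
defined by the core rewriting system of `H` (built from `D`) contains an idempotent.
-/

namespace Pool.Agent.Results.MP_80b09e_al.CopyGivesIdempotent

open Pool.Agent.W_MP_80b09e_al

theorem result (D : Set (BTree × BTree)) (hD : ∀ P ∈ D, IsReduced P)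
    (H : Subgroup (ℝ ≃o ℝ)) (hH : H = Subgroup.closure {f | ∃ P ∈ D, Represents f P})
    (φ : thompsonF →* H) (hφ : Function.Injective φ) :
    ∃ e : CoreSemigroup D, e * e = e := by
  subst hH
  exact main (D := D) ((Subgroup.subtype _).comp φ)
    (fun x y hxy => hφ (Subtype.ext hxy)) (fun x => (φ x).2)

end Pool.Agent.Results.MP_80b09e_al.CopyGivesIdempotent
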